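import Pool.Agent.Q255.L2.Alm
import Pool.Agent.Q14.QT.QT5

/-!
# Project L2Q of helper255, job QE: square root cancellation for almost all Jacobi symbols
-/

set_option autoImplicit false

namespace Pool.Agent.Q182.L2

open Finset
open Pool.Agent.Q255.L2

theorem nn_nonneg' (X : ℕ) (w : ℕ → ℝ) : 0 ≤ nn X w := Finset.sum_nonneg fun _ _ => sq_nonneg _

/-- the `ℓ¹` norm in terms of `nn` -/
theorem l1_le (X : ℕ) (w : ℕ → ℝ) : (∑ n ∈ Icc 1 X, |w n|) ^ 2 ≤ X * nn X w := by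
  classical
  choose s r hrs hs using Nat.sq_mul_squarefree
  have hinj : Function.Injective (fun n : ℕ => (s n, r n)) := by
    intro a b hab
    have h1 : s a = s b := congrArg Prod.fst hab
    have h2 : r a = r b := congrArg Prod.snd hab
    rw [← hrs a, ← hrs b, h1, h2]
  have hsub : (Icc 1 X).image (fun n : ℕ => (s n, r n)) ⊆ ((Icc 1 X).filter Squarefree) ×ˢ Icc 1 X := by
    intro p hp
    obtain ⟨n, hn, rfl⟩ := mem_image.1 hp
    rw [mem_Icc] at hn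
    have hs0 : s n ≠ 0 := fun h => by
      have := hrs n
      rw [h, mul_zero] at this
      omega
    have hr0 : r n ≠ 0 := fun h => by
      have := hrs n
      rw [h] at this
      simp at this
      omega
    have h1 : s n ≤ n := by
      conv_rhs => rw [← hrs n]
      exact Nat.le_mul_of_pos_left _ (pow_pos (Nat.pos_of_ne_zero hr0) 2)
    have h2 : r n ≤ n := by
      calc r n ≤ r n ^ 2 := Nat.le_self_pow (by norm_num) _
        _ ≤ r n ^ 2 * s n := Nat.le_mul_of_pos_right _ (Nat.pos_of_ne_zero hs0)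
        _ = n := hrs n
    rw [mem_product, mem_filter, mem_Icc, mem_Icc]
    exact ⟨⟨⟨Nat.pos_of_ne_zero hs0, h1.trans hn.2⟩, hs n⟩, Nat.pos_of_ne_zero hr0, h2.trans hn.2⟩
  have h1 : ∑ n ∈ Icc 1 X, |w n| ≤
      ∑ s ∈ (Icc 1 X).filter Squarefree, ∑ r ∈ Icc 1 X, |w (r ^ 2 * s)| := by
    rw [← sum_product']
    calc ∑ n ∈ Icc 1 X, |w n| = ∑ p ∈ (Icc 1 X).image (fun n : ℕ => (s n, r n)),
          |w (p.2 ^ 2 * p.1)| := by
          rw [sum_image (fun a _ b _ hab => hinj hab)]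
          exact sum_congr rfl fun n _ => by rw [hrs n]
      _ ≤ _ := sum_le_sum_of_subset_of_nonneg hsub fun _ _ _ => abs_nonneg _
  have h2 : (∑ s ∈ (Icc 1 X).filter Squarefree, ∑ r ∈ Icc 1 X, |w (r ^ 2 * s)|) ^ 2 ≤
      X * nn X w := by
    have h3 := sq_sum_le_card_mul_sum_sq (s := (Icc 1 X).filter Squarefree)
      (f := fun s => ∑ r ∈ Icc 1 X, |w (r ^ 2 * s)|)
    refine h3.trans ?_
    refine mul_le_mul_of_nonneg_right ?_ (nn_nonneg' X w)
    have h4 : ((Icc 1 X).filter Squarefree).card ≤ X := by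
      refine (card_le_card (filter_subset _ _)).trans ?_
      rw [Nat.card_Icc, Nat.add_sub_cancel]
    exact_mod_cast h4
  have h0 : 0 ≤ ∑ n ∈ Icc 1 X, |w n| := sum_nonneg fun _ _ => abs_nonneg _
  exact (pow_le_pow_left₀ h0 h1 2).trans h2

theorem jc_one (m : ℕ) : jc m 1 = 1 := by
  unfold jc
  rw [Nat.cast_one, jacobiSym.one_left, Int.cast_one]

theorem jc_mul (m a b : ℕ) : jc m (a * b) = jc m a * jc m b := by
  unfold jc
  rw [Nat.cast_mul, jacobiSym.mul_left, Int.cast_mul]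

theorem jc_prod {ι : Type} (m : ℕ) (s : Finset ι) (t : ι → ℕ) :
    jc m (∏ i ∈ s, t i) = ∏ i ∈ s, jc m (t i) := by
  classical
  induction s using Finset.induction_on with
  | empty => rw [prod_empty, prod_empty, jc_one]
  | insert i s hi ih => rw [prod_insert hi, prod_insert hi, jc_mul, ih]

theorem jc_abs (m n : ℕ) : |jc m n| ≤ 1 := by
  unfold jc
  rcases jacobiSym.trichotomy (n : ℤ) m with h | h | h <;> rw [h] <;> norm_num

/-- the odd numbers up to `P` -/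
def od (P : ℕ) : Finset ℕ := (Icc 1 P).filter fun m => Odd m

theorem od_eq (P : ℕ) : od P = (range (P + 1)).filter fun m => Odd m := by
  unfold od
  ext m
  rw [mem_filter, mem_filter, mem_Icc, mem_range]
  constructor
  · rintro ⟨⟨_, h2⟩, h3⟩
    exact ⟨by omega, h3⟩
  · rintro ⟨h1, h2⟩
    refine ⟨⟨?_, by omega⟩, h2⟩
    rcases h2 with ⟨j, hj⟩
    omega

theorem sum_jc_nsq {N : ℕ} (hN : 0 < N) (hsq : ¬ IsSquare N) (P : ℕ) :
    |∑ m ∈ od P, jc m N| ≤ 4 * (N : ℝ) := by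
  have h := Pool.Agent.Q14.QT.t_Char N hN hsq P
  rw [← od_eq] at h
  have h1 : ((|∑ m ∈ od P, jacobiSym (N : ℤ) m| : ℤ) : ℝ) ≤ ((4 * (N : ℤ) : ℤ) : ℝ) := by
    exact_mod_cast h
  rw [Int.cast_abs, Int.cast_sum] at h1
  unfold jc
  refine h1.trans (le_of_eq ?_)
  push_cast
  ring

theorem sum_jc_le (N P : ℕ) : |∑ m ∈ od P, jc m N| ≤ (P : ℝ) := by
  refine (abs_sum_le_sum_abs _ _).trans ?_
  refine (sum_le_sum fun m _ => jc_abs m N).trans ?_
  rw [sum_const, nsmul_eq_mul, mul_one]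
  have h4 : (od P).card ≤ P := by
    unfold od
    refine (card_le_card (filter_subset _ _)).trans ?_
    rw [Nat.card_Icc, Nat.add_sub_cancel]
  exact_mod_cast h4

/-- the moments -/
theorem mom_eq (k X P : ℕ) (w : ℕ → ℝ) :
    ∑ m ∈ od P, (∑ n ∈ Icc 1 X, w n * jc m n) ^ k =
      ∑ t ∈ Fintype.piFinset fun _ : Fin k => Icc 1 X, (∏ i, w (t i)) * ∑ m ∈ od P, jc m (∏ i, t i) := by
  classical
  have h1 : ∀ m, (∑ n ∈ Icc 1 X, w n * jc m n) ^ k =
      ∑ t ∈ Fintype.piFinset fun _ : Fin k => Icc 1 X, (∏ i, w (t i)) * jc m (∏ i, t i) := by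
    intro m
    have h2 := Finset.prod_univ_sum (fun _ : Fin k => Icc 1 X) (fun _ n => w n * jc m n)
    rw [prod_const, card_univ, Fintype.card_fin] at h2
    rw [h2]
    refine sum_congr rfl fun t _ => ?_
    rw [prod_mul_distrib, jc_prod]
  rw [sum_congr rfl fun m _ => h1 m, sum_comm]
  exact sum_congr rfl fun t _ => by rw [mul_sum]

theorem mom_le (k X P : ℕ) (w : ℕ → ℝ) :
    ∑ m ∈ od P, (∑ n ∈ Icc 1 X, w n * jc m n) ^ k ≤
      P * (∑ t ∈ (Fintype.piFinset fun _ : Fin k => Icc 1 X).filter (fun t => IsSquare (∏ i, t i)),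
        ∏ i, |w (t i)|) + 4 * (∑ n ∈ Icc 1 X, |w n| * n) ^ k := by
  classical
  rw [mom_eq]
  have h1 : ∀ t ∈ Fintype.piFinset fun _ : Fin k => Icc 1 X,
      (∏ i, w (t i)) * ∑ m ∈ od P, jc m (∏ i, t i) ≤
        (if IsSquare (∏ i, t i) then P * ∏ i, |w (t i)| else 0) + 4 * ∏ i, (|w (t i)| * (t i : ℝ)) := by
    intro t ht
    rw [Fintype.mem_piFinset] at ht
    have h0 : 0 < ∏ i, t i := prod_pos fun i _ => (mem_Icc.1 (ht i)).1
    have h2 : (∏ i, w (t i)) * ∑ m ∈ od P, jc m (∏ i, t i) ≤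
        (∏ i, |w (t i)|) * |∑ m ∈ od P, jc m (∏ i, t i)| := by
      refine (le_abs_self _).trans ?_
      rw [abs_mul, abs_prod]
    have h3 : 0 ≤ ∏ i, |w (t i)| := prod_nonneg fun _ _ => abs_nonneg _
    have h4 : 0 ≤ ∏ i, (|w (t i)| * (t i : ℝ)) :=
      prod_nonneg fun _ _ => mul_nonneg (abs_nonneg _) (Nat.cast_nonneg _)
    refine h2.trans ?_
    by_cases hs : IsSquare (∏ i, t i)
    · rw [if_pos hs]
      have h5 := mul_le_mul_of_nonneg_left (sum_jc_le (∏ i, t i) P) h3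
      linarith
    · rw [if_neg hs, zero_add]
      refine (mul_le_mul_of_nonneg_left (sum_jc_nsq h0 hs P) h3).trans (le_of_eq ?_)
      rw [prod_mul_distrib]
      push_cast
      ring
  refine (sum_le_sum h1).trans (le_of_eq ?_)
  rw [sum_add_distrib, ← sum_filter, ← mul_sum, ← mul_sum]
  have h2 := Finset.prod_univ_sum (fun _ : Fin k => Icc 1 X) (fun _ (n : ℕ) => |w n| * (n : ℝ))
  rw [prod_const, card_univ, Fintype.card_fin] at h2
  rw [h2]

/-- the bad `m` for one weight -/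
theorem bad_card {q X P : ℕ} {C ε : ℝ} (hX : 1 ≤ X) (hC0 : 0 ≤ C) (w : ℕ → ℝ)
    (hC : ∑ t ∈ (Fintype.piFinset fun _ : Fin (2 * q) => Icc 1 X).filter
      (fun t => IsSquare (∏ i, t i)), ∏ i, |w (t i)| ≤ C * X * nn X w ^ q)
    (hP : X ^ (3 * q) ≤ P) :
    (((od P).filter fun m => ¬ |∑ n ∈ Icc 1 X, w n * jc m n| ≤ (X : ℝ) ^ ε * √(nn X w)).card : ℝ) *
      ((X : ℝ) ^ ε) ^ (2 * q) ≤ (C * X + 4) * P := by
  classical
  have hX0 : (0 : ℝ) < X := by exact_mod_cast hX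
  have hnn := nn_nonneg' X w
  have hl1 := l1_le X w
  have hs0 : 0 ≤ ∑ n ∈ Icc 1 X, |w n| := sum_nonneg fun _ _ => abs_nonneg _
  have hXe : 0 < (X : ℝ) ^ ε := Real.rpow_pos_of_pos hX0 _
  have hwn : ∀ m, |∑ n ∈ Icc 1 X, w n * jc m n| ≤ ∑ n ∈ Icc 1 X, |w n| := by
    intro m
    refine (abs_sum_le_sum_abs _ _).trans (sum_le_sum fun n _ => ?_)
    rw [abs_mul]
    exact mul_le_of_le_one_right (abs_nonneg _) (jc_abs m n)
  rcases hnn.eq_or_lt with h0 | h0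
  · -- all weights vanish
    have h1 : ∑ n ∈ Icc 1 X, |w n| = 0 := by
      rw [← h0, mul_zero] at hl1
      exact pow_eq_zero_iff (two_ne_zero) |>.1 (le_antisymm hl1 (sq_nonneg _))
    have h2 : (od P).filter (fun m => ¬ |∑ n ∈ Icc 1 X, w n * jc m n| ≤ (X : ℝ) ^ ε * √(nn X w)) = ∅ := by
      refine filter_eq_empty_iff.2 fun m _ => ?_
      rw [not_not, ← h0, Real.sqrt_zero, mul_zero]
      exact (hwn m).trans h1.le
    rw [h2, card_empty, Nat.cast_zero, zero_mul]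
    positivity
  · have h1 : (∑ n ∈ Icc 1 X, |w n| * n) ^ (2 * q) ≤ P * nn X w ^ q := by
      have h2 : ∑ n ∈ Icc 1 X, |w n| * n ≤ X * ∑ n ∈ Icc 1 X, |w n| := by
        rw [mul_sum]
        refine sum_le_sum fun n hn => ?_
        rw [mul_comm]
        refine mul_le_mul_of_nonneg_right ?_ (abs_nonneg _)
        exact_mod_cast (mem_Icc.1 hn).2
      have h3 : 0 ≤ ∑ n ∈ Icc 1 X, |w n| * n :=
        sum_nonneg fun _ _ => mul_nonneg (abs_nonneg _) (Nat.cast_nonneg _)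
      calc (∑ n ∈ Icc 1 X, |w n| * n) ^ (2 * q) ≤ (X * ∑ n ∈ Icc 1 X, |w n|) ^ (2 * q) :=
            pow_le_pow_left₀ h3 h2 _
        _ = (X : ℝ) ^ (2 * q) * ((∑ n ∈ Icc 1 X, |w n|) ^ 2) ^ q := by
            rw [mul_pow, pow_mul (∑ n ∈ Icc 1 X, |w n|) 2 q]
        _ ≤ (X : ℝ) ^ (2 * q) * (X * nn X w) ^ q :=
            mul_le_mul_of_nonneg_left (pow_le_pow_left₀ (sq_nonneg _) hl1 q) (by positivity)
        _ = (X : ℝ) ^ (3 * q) * nn X w ^ q := by
            rw [mul_pow, ← mul_assoc, ← pow_add]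
            congr 2
            ring
        _ ≤ P * nn X w ^ q := mul_le_mul_of_nonneg_right (by exact_mod_cast hP) (by positivity)
    have h2 := mom_le (2 * q) X P w
    have h3 : ∑ m ∈ od P, (∑ n ∈ Icc 1 X, w n * jc m n) ^ (2 * q) ≤
        (C * X + 4) * P * nn X w ^ q := by
      refine h2.trans ?_
      have h4 := mul_le_mul_of_nonneg_left hC (Nat.cast_nonneg (α := ℝ) P)
      nlinarith [h1, h4]
    have h4 : (((od P).filter fun m => ¬ |∑ n ∈ Icc 1 X, w n * jc m n| ≤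
        (X : ℝ) ^ ε * √(nn X w)).card : ℝ) * (((X : ℝ) ^ ε) ^ (2 * q) * nn X w ^ q) ≤
        ∑ m ∈ od P, (∑ n ∈ Icc 1 X, w n * jc m n) ^ (2 * q) := by
      rw [← nsmul_eq_mul, ← sum_const]
      refine (sum_le_sum fun m hm => ?_).trans
        (sum_le_sum_of_subset_of_nonneg (filter_subset _ _) fun m _ _ => ?_)
      · have h5 := not_le.1 (mem_filter.1 hm).2
        have h6 : ((X : ℝ) ^ ε) ^ (2 * q) * nn X w ^ q = ((X : ℝ) ^ ε * √(nn X w)) ^ (2 * q) := by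
          rw [mul_pow, pow_mul √(nn X w) 2 q, Real.sq_sqrt hnn]
        rw [h6, ← Even.pow_abs (even_two_mul q) (∑ n ∈ Icc 1 X, w n * jc m n)]
        exact pow_le_pow_left₀ (by positivity) h5.le _
      · exact Even.pow_nonneg (even_two_mul q) _
    have h5 := h4.trans h3
    have h6 : 0 < nn X w ^ q := pow_pos h0 q
    rw [← mul_assoc] at h5
    exact le_of_mul_le_mul_right h5 h6

/-- the cut off weights -/
theorem hy_apply {q X : ℕ} {C : ℝ} (hX : 1 ≤ X) (hC0 : 0 ≤ C)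
    (hC : ∀ (X : ℕ) (w : Fin (2 * q) → ℕ → ℝ), 1 ≤ X → (∀ i n, 0 ≤ w i n) →
      (∀ i n, X < n → w i n = 0) →
      ∑ t ∈ (Fintype.piFinset fun _ : Fin (2 * q) => Icc 1 X).filter (fun t => IsSquare (∏ i, t i)),
        ∏ i, w i (t i) ≤ C * (X : ℝ) ^ (1 : ℝ) * ∏ i, √(nn X (w i))) (w : ℕ → ℝ) :
    ∑ t ∈ (Fintype.piFinset fun _ : Fin (2 * q) => Icc 1 X).filter
      (fun t => IsSquare (∏ i, t i)), ∏ i, |w (t i)| ≤ C * X * nn X w ^ q := by
  classical
  have h1 := hC X (fun _ n => if n ≤ X then |w n| else 0) hX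
    (fun _ n => by
      by_cases h : n ≤ X
      · rw [if_pos h]
        exact abs_nonneg _
      · rw [if_neg h])
    (fun _ n hn => if_neg (not_le.2 hn))
  have h2 : ∑ t ∈ (Fintype.piFinset fun _ : Fin (2 * q) => Icc 1 X).filter
      (fun t => IsSquare (∏ i, t i)), ∏ i, (fun n => if n ≤ X then |w n| else 0) (t i) =
      ∑ t ∈ (Fintype.piFinset fun _ : Fin (2 * q) => Icc 1 X).filter
      (fun t => IsSquare (∏ i, t i)), ∏ i, |w (t i)| := by
    refine sum_congr rfl fun t ht => prod_congr rfl fun i _ => ?_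
    have h3 := (mem_Icc.1 ((Fintype.mem_piFinset.1 (mem_filter.1 ht).1) i)).2
    exact if_pos h3
  have h3 : nn X (fun n => if n ≤ X then |w n| else 0) ≤ nn X w := by
    unfold nn
    refine sum_le_sum fun s _ => ?_
    refine pow_le_pow_left₀ (sum_nonneg fun _ _ => abs_nonneg _) (sum_le_sum fun r _ => ?_) 2
    change |if r ^ 2 * s ≤ X then |w (r ^ 2 * s)| else 0| ≤ |w (r ^ 2 * s)|
    by_cases h : r ^ 2 * s ≤ X
    · rw [if_pos h, abs_abs]
    · rw [if_neg h, abs_zero]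
      exact abs_nonneg _
  rw [prod_const, card_univ, Fintype.card_fin, Real.rpow_one] at h1
  rw [pow_mul √(nn X fun n => if n ≤ X then |w n| else 0) 2 q, Real.sq_sqrt (nn_nonneg' _ _)] at h1
  rw [← h2]
  refine h1.trans ?_
  exact mul_le_mul_of_nonneg_left (pow_le_pow_left₀ (nn_nonneg' _ _) h3 q)
    (mul_nonneg hC0 (Nat.cast_nonneg X))

/-- **JOB QE** -/
theorem qe (h : S_HY) : S_QE := by
  classical
  intro A ε W hε hW
  rw [alm_iff]
  intro B
  -- the exponent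
  obtain ⟨q, hq⟩ : ∃ q : ℕ, B + 1 + 2 * |A| ≤ 2 * q * ε := by
    obtain ⟨q, hq⟩ := exists_nat_ge ((B + 1 + 2 * |A|) / (2 * ε))
    refine ⟨q, ?_⟩
    have h1 := (div_le_iff₀ (by positivity)).1 hq
    linarith
  obtain ⟨C, hC0, hC⟩ := h (Fin (2 * q)) 1 one_pos
  refine ⟨3 * q, Real.exp |A| * (C + 4), fun J P hP => ?_⟩
  have hX : 1 ≤ 2 ^ J := Nat.one_le_two_pow
  have hX0 : (0 : ℝ) < ((2 ^ J : ℕ) : ℝ) := by exact_mod_cast hX
  have hXc : ((2 ^ J : ℕ) : ℝ) = (2 : ℝ) ^ (J : ℝ) := by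
    rw [Real.rpow_natCast]
    push_cast
    rfl
  have hP' : (2 ^ J) ^ (3 * q) ≤ P := by
    rw [← pow_mul, mul_comm J]
    exact hP
  have hXe : ((2 ^ J : ℕ) : ℝ) ^ ε = (2 : ℝ) ^ (ε * J) := by
    rw [hXc, ← Real.rpow_mul (by norm_num), mul_comm]
  -- one weight
  have hone : ∀ w ∈ W J, (((od P).filter fun m =>
      ¬ |∑ n ∈ Icc 1 (2 ^ J), w n * jc m n| ≤ (2 : ℝ) ^ (ε * J) * √(nn (2 ^ J) w)).card : ℝ) ≤
        (C + 4) * P * (2 : ℝ) ^ ((1 - 2 * q * ε) * J) := by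
    intro w _
    have h1 := bad_card (q := q) (P := P) (ε := ε) hX hC0 w (hy_apply hX hC0 hC w) hP'
    rw [hXe] at h1
    have h2 : ((2 : ℝ) ^ (ε * J)) ^ (2 * q) = (2 : ℝ) ^ (2 * q * ε * J) := by
      rw [← Real.rpow_natCast, ← Real.rpow_mul (by norm_num)]
      congr 1
      push_cast
      ring
    rw [h2] at h1
    have h3 : (0 : ℝ) < (2 : ℝ) ^ (2 * q * ε * J) := Real.rpow_pos_of_pos (by norm_num) _
    have h4 : (C * ((2 ^ J : ℕ) : ℝ) + 4) * P ≤ (C + 4) * P * (2 : ℝ) ^ (J : ℝ) := by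
      rw [hXc]
      have h5 : (1 : ℝ) ≤ (2 : ℝ) ^ (J : ℝ) := Real.one_le_rpow (by norm_num) (Nat.cast_nonneg J)
      have h6 : (0 : ℝ) ≤ P := Nat.cast_nonneg P
      nlinarith [mul_nonneg h6 (sub_nonneg.2 h5)]
    have h5 : (2 : ℝ) ^ ((1 - 2 * q * ε) * J) * (2 : ℝ) ^ (2 * q * ε * J) = (2 : ℝ) ^ (J : ℝ) := by
      rw [← Real.rpow_add (by norm_num)]
      congr 1
      ring
    refine le_of_mul_le_mul_right ?_ h3
    rw [mul_assoc ((C + 4) * (P : ℝ)), h5]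
    exact h1.trans h4
  -- the union
  have hsub : Exc (fun J m => ∀ w ∈ W J, |∑ n ∈ Icc 1 (2 ^ J), w n * jc m n| ≤
      (2 : ℝ) ^ (ε * J) * √(nn (2 ^ J) w)) J P ⊆ (W J).biUnion fun w => (od P).filter fun m =>
      ¬ |∑ n ∈ Icc 1 (2 ^ J), w n * jc m n| ≤ (2 : ℝ) ^ (ε * J) * √(nn (2 ^ J) w) := by
    intro m hm
    obtain ⟨h1, h2, h3⟩ := mem_exc.1 hm
    push Not at h3
    obtain ⟨w, hw, hw2⟩ := h3
    rw [mem_biUnion]
    refine ⟨w, hw, ?_⟩
    rw [mem_filter]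
    unfold od
    rw [mem_filter]
    exact ⟨⟨h1, h2⟩, not_le.2 hw2⟩
  have h1 : ((Exc (fun J m => ∀ w ∈ W J, |∑ n ∈ Icc 1 (2 ^ J), w n * jc m n| ≤
      (2 : ℝ) ^ (ε * J) * √(nn (2 ^ J) w)) J P).card : ℝ) ≤
      ∑ w ∈ W J, (((od P).filter fun m =>
      ¬ |∑ n ∈ Icc 1 (2 ^ J), w n * jc m n| ≤ (2 : ℝ) ^ (ε * J) * √(nn (2 ^ J) w)).card : ℝ) := by
    exact_mod_cast (card_le_card hsub).trans card_biUnion_le
  refine h1.trans ((sum_le_sum hone).trans ?_)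
  rw [sum_const, nsmul_eq_mul]
  have h2 : ((W J).card : ℝ) ≤ Real.exp |A| * (2 : ℝ) ^ (2 * |A| * J) := by
    refine (hW J).trans ?_
    have h3 : A * ((J : ℝ) + 1) ≤ |A| + |A| * J := by
      have h4 := le_abs_self A
      have h5 : (0 : ℝ) ≤ J := Nat.cast_nonneg J
      nlinarith
    refine (Real.exp_le_exp.2 h3).trans ?_
    rw [Real.exp_add]
    refine mul_le_mul_of_nonneg_left ?_ (Real.exp_pos _).le
    rw [Real.rpow_def_of_pos (by norm_num)]
    refine Real.exp_le_exp.2 ?_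
    have h6 : (0 : ℝ) ≤ |A| * J := mul_nonneg (abs_nonneg _) (Nat.cast_nonneg J)
    have h7 := Real.log_two_gt_d9
    nlinarith
  have h3 : (0 : ℝ) ≤ (C + 4) * P * (2 : ℝ) ^ ((1 - 2 * q * ε) * J) := by positivity
  refine (mul_le_mul_of_nonneg_right h2 h3).trans ?_
  have h4 : Real.exp |A| * (2 : ℝ) ^ (2 * |A| * J) * ((C + 4) * P * (2 : ℝ) ^ ((1 - 2 * q * ε) * J)) =
      Real.exp |A| * (C + 4) * P * (2 : ℝ) ^ (2 * |A| * J + (1 - 2 * q * ε) * J) := by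
    rw [Real.rpow_add (by norm_num)]
    ring
  rw [h4]
  refine mul_le_mul_of_nonneg_left ?_ (by positivity)
  refine Real.rpow_le_rpow_of_exponent_le (by norm_num) ?_
  have h5 : (0 : ℝ) ≤ J := Nat.cast_nonneg J
  nlinarith [mul_le_mul_of_nonneg_right hq h5]

end Pool.Agent.Q182.L2
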